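import Pool.Agent.H574R3.CS.Stmts

/-! Task `Even1` of the project `H574-CS`. -/

set_option autoImplicit false

namespace Pool.Agent.H574R3.CS

open Polynomial

theorem even1_li {K : Type} [Field K] (b c b' c' w w' : K) (h : b * c' - c * b' ≠ 0) :
    LinearIndependent K ![![0, 0, 1, 0], ![b, c, 0, w], ![b', c', 0, w']] := by
  rw [Fintype.linearIndependent_iff]
  intro g hg
  have h0 := congrFun hg 0
  have h1 := congrFun hg 1
  have h2 := congrFun hg 2
  simp [Fin.sum_univ_three] at h0 h1 h2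
  have e1 : g 1 * (b * c' - c * b') = 0 := by linear_combination c' * h0 - b' * h1
  have e2 : g 2 * (b * c' - c * b') = 0 := by linear_combination b * h1 - c * h0
  have g1 : g 1 = 0 := (mul_eq_zero.mp e1).resolve_right h
  have g2 : g 2 = 0 := (mul_eq_zero.mp e2).resolve_right h
  intro i
  fin_cases i
  · exact h2
  · exact g1
  · exact g2

theorem even1_aux {K : Type} [Field K] (hU : TaskU) (hV : TaskV) (a : Ten K) (n : NF K)
    (h2 : (2 : K) = 0) (hn : IsNF a n) (hq1 : n.q1 = 0) (hq2 : n.q2 = 0) (hq3 : n.q3 = 0)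
    (hm1 : n.m1 = 0) (hm2 : n.m2 = 0) (hm3 : n.m3 ≠ 0) (hk : n.k = 0) (hA : n.Aniso)
    (b c b' c' : K) (hdet : b * c' - c * b' ≠ 0)
    (hne : n.m3 ^ 2 * (n.h1 * b ^ 2 + n.h2 * (b * c) + n.h3 * c ^ 2) +
      (n.l1 * b + n.l2 * c) ^ 2 ≠ 0) : Curve a e3 := by
  have hval := hn.1 K
  have hder := hn.2 K
  set w : K := (n.l1 * b + n.l2 * c) / n.m3 with hw
  set w' : K := (n.l1 * b' + n.l2 * c') / n.m3 with hw'
  have hwm : n.m3 * w = n.l1 * b + n.l2 * c := by rw [hw]; field_simp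
  have hwm' : n.m3 * w' = n.l1 * b' + n.l2 * c' := by rw [hw']; field_simp
  have hD : D a (![b, c, 0, w] : Fin 4 → K) ![0, 0, 1, 0] =
      w ^ 2 + (n.h1 * b ^ 2 + n.h2 * (b * c) + n.h3 * c ^ 2) := by
    rw [hder]
    simp [NF.DF, hq1, hq2, hq3, hm1, hm2, hk]
  have hD0 : D a (![b, c, 0, w] : Fin 4 → K) ![0, 0, 1, 0] ≠ 0 := by
    intro h0
    apply hne
    rw [hD] at h0
    rw [← hwm]
    linear_combination n.m3 ^ 2 * h0
  have hcub : cub a (![b, c, 0, w] : Fin 4 → K) =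
      n.a * b ^ 3 + n.b * (b ^ 2 * c) + n.c * (b * c ^ 2) + n.d * c ^ 3 := by
    rw [hval]
    simp [NF.F, hq1, hq2, hq3, hm1, hm2, hk]
  obtain ⟨r, hr, hr0, hrn⟩ := hV K a ![0, 0, 1, 0] ![b, c, 0, w] ![b', c', 0, w']
    (by rw [hval]; simp [NF.F, hk])
    (by
      rw [hder]
      simp [NF.DF, hq1, hq2, hq3, hm1, hm2, hk]
      linear_combination hwm + (n.l1 * b + n.l2 * c) * h2)
    (by
      rw [hder]
      simp [NF.DF, hq1, hq2, hq3, hm1, hm2, hk]
      linear_combination hwm' + (n.l1 * b' + n.l2 * c') * h2)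
    (even1_li b c b' c' w w' hdet) hD0
  refine hU K a e3 r ?_ hr ?_ hrn
  · rw [hval]
    simp [NF.F, e3, hq1, hq2, hq3]
  · have h3 : D a (e3 : Fin 4 → K) (fun i => (r i).eval 0) = (r 2).eval 0 := by
      rw [hder]
      simp [NF.DF, e3, hq1, hq2, hq3, hm1, hm2]
    rw [h3, hr0 2, hcub]
    simp only [Matrix.cons_val]
    intro h4
    have h5 := hA b c (by linear_combination -h4)
    apply hdet
    rw [h5.1, h5.2]
    ring

theorem taskEven1 : TaskEven1 := by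
  intro hU hV K _ a n h2 hn hq1 hq2 hq3 hm1 hm2 hm3 hk hA hex
  by_cases h1 : n.m3 ^ 2 * n.h1 = n.l1 ^ 2
  · by_cases h3 : n.m3 ^ 2 * n.h3 = n.l2 ^ 2
    · have hh2 : n.h2 ≠ 0 := fun h => hex ⟨h1, h, h3⟩
      refine even1_aux hU hV a n h2 hn hq1 hq2 hq3 hm1 hm2 hm3 hk hA 1 1 0 1 (by simp) ?_
      intro h
      have h4 : n.m3 ^ 2 * n.h2 = 0 := by
        linear_combination h - (n.l1 ^ 2 + n.l2 ^ 2 + n.l1 * n.l2) * h2 - h1 - h3
      rcases mul_eq_zero.mp h4 with h5 | h5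
      · exact hm3 (pow_eq_zero_iff (two_ne_zero) |>.mp h5)
      · exact hh2 h5
    · refine even1_aux hU hV a n h2 hn hq1 hq2 hq3 hm1 hm2 hm3 hk hA 0 1 1 0 (by simp) ?_
      intro h
      apply h3
      linear_combination h - n.l2 ^ 2 * h2
  · refine even1_aux hU hV a n h2 hn hq1 hq2 hq3 hm1 hm2 hm3 hk hA 1 0 0 1 (by simp) ?_
    intro h
    apply h1
    linear_combination h - n.l1 ^ 2 * h2

end Pool.Agent.H574R3.CS
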